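import Pool.Agent.TH750.Scott

/-!
# Finitely generated integral domains have d-Sigma_2 Scott sentences

Definitions (formulas of `L_{ω₁ω}` in normal form, the levels `Σ_n`, `Π_n`, d-`Σ_2` Scott sentences)
are in `Pool/Agent/TH750/Scott.lean`. The language is Mathlib's `Language.ring`, with the symbols
`+`, `*`, `-`, `0`, `1`.

Proof. Let `a` generate the domain `R` and let the tuple `x` satisfy the universal formulas true of
`a`. Then `a ↦ x` defines an injective endomorphism `φ` of `R` whose image `B` is the subring
generated by `x`. By comparing transcendence degrees over the prime ring, `R` is algebraic over `B`.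
Let `y ∈ R`, and let `p ≠ 0` be a polynomial over `R` such that `y` is a root of `φ(p)`. The roots of
`p` in `R` are `c_1, …, c_r`, and the formula `∀ w (p(w) = 0 → (w - c_1) ⋯ (w - c_r) = 0)` is a
universal formula true of `a`, hence true of `x`: every root of `φ(p)` is one of the `φ(c_i)`, so
`y ∈ B`. Hence `x` generates `R`, and the criterion of the starting file applies.
-/

set_option autoImplicit false

namespace Pool.Agent.Results.MP_93e0ce_lc.IntegralDomains

open FirstOrder FirstOrder.Language FirstOrder.Ring Pool.Agent.TH750.SC Polynomial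

section Algebraic

variable {R : Type} [CommRing R] [IsDomain R]

/-- The prime ring. -/
abbrev P (R : Type) [CommRing R] : Subring R := (Int.castRingHom R).range

/-- A finitely generated domain is algebraic over the image of every injective endomorphism. -/
theorem algebraic_over_image (hfin : Algebra.FiniteType ℤ R) (φ : R →+* R)
    (hφ : Function.Injective φ) (y : R) : ∃ p : R[X], p ≠ 0 ∧ p.eval₂ φ y = 0 := by
  have hft : Algebra.FiniteType (P R) R := Algebra.FiniteType.of_restrictScalars_finiteType ℤ (P R) R
  let φ' : R →ₐ[P R] R :=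
    { φ with
      commutes' := by
        rintro ⟨_, n, rfl⟩
        change φ (Int.castRingHom R n) = Int.castRingHom R n
        simp }
  obtain ⟨s, hs⟩ := exists_isTranscendenceBasis (P R) R
  have hfinite : Algebra.trdeg (P R) R < Cardinal.aleph0 := trdeg_lt_aleph0_of_finiteType
  have hx : AlgebraicIndependent (P R) (φ' ∘ ((↑) : s → R)) := hs.1.map' hφ
  have hb := hx.isTranscendenceBasis_of_trdeg_le hfinite hs.cardinalMk_eq_trdeg.ge
  have halg := hb.isAlgebraic
  obtain ⟨p0, hp0, hp1⟩ := halg.isAlgebraic y
  have hle : Algebra.adjoin (P R) (Set.range (φ' ∘ ((↑) : s → R))) ≤ φ'.range := by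
    refine Algebra.adjoin_le ?_
    rintro _ ⟨z, rfl⟩
    exact ⟨_, rfl⟩
  let ι : Algebra.adjoin (P R) (Set.range (φ' ∘ ((↑) : s → R))) →+* R :=
    (Subalgebra.val _ : _ →ₐ[P R] R).toRingHom
  have hι : Function.Injective ι := Subtype.val_injective
  have hl : p0.map ι ∈ Polynomial.lifts φ := by
    rw [Polynomial.lifts_iff_coeff_lifts]
    intro k
    rw [Polynomial.coeff_map]
    obtain ⟨z, hz⟩ := hle (p0.coeff k).2
    exact ⟨z, hz⟩
  obtain ⟨p, hp⟩ := (Polynomial.mem_lifts _).1 hl
  refine ⟨p, ?_, ?_⟩
  · rintro rfl
    rw [Polynomial.map_zero] at hp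
    exact hp0 ((Polynomial.map_eq_zero_iff hι).1 hp.symm)
  · rw [← Polynomial.eval_map, hp, Polynomial.eval_map]
    exact hp1

end Algebraic

section Main

variable {R : Type} [CommRing R] [CompatibleRing R]

/-- The element of the free commutative ring on `n + 1` generators given by a polynomial over the
free commutative ring on `n` generators. -/
noncomputable def pt {n : ℕ} (Q : (FreeCommRing (Fin n))[X]) : FreeCommRing (Fin (n + 1)) :=
  Q.eval₂ (FreeCommRing.lift fun j => FreeCommRing.of (Fin.castAdd 1 j))
    (FreeCommRing.of (Fin.natAdd n 0))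

omit [CompatibleRing R] in
theorem lift_pt {n : ℕ} (Q : (FreeCommRing (Fin n))[X]) (v : Fin n → R) (w : Fin 1 → R) :
    FreeCommRing.lift (Fin.append v w) (pt Q) = Q.eval₂ (FreeCommRing.lift v) (w 0) := by
  unfold pt
  rw [Polynomial.hom_eval₂, FreeCommRing.lift_of, Fin.append_right]
  congr 1
  ext j
  simp [Fin.append_left]

/-- Universal statements about roots of polynomials are transferred. -/
theorem transfer {n : ℕ} {a x : Fin n → R} (h : UnivLE (L := Language.ring) a x)
    (Q D : (FreeCommRing (Fin n))[X])
    (H : ∀ w : R, Q.eval₂ (FreeCommRing.lift a) w = 0 → D.eval₂ (FreeCommRing.lift a) w = 0)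
    (w : R) (hw : Q.eval₂ (FreeCommRing.lift x) w = 0) : D.eval₂ (FreeCommRing.lift x) w = 0 := by
  let ψ : Language.ring.Formula (Fin (n + 1)) :=
    (Term.equal (termOfFreeCommRing (pt Q)) (termOfFreeCommRing 0)).imp
      (Term.equal (termOfFreeCommRing (pt D)) (termOfFreeCommRing 0))
  have hψ : BoundedFormula.IsQF ψ :=
    (BoundedFormula.IsAtomic.equal _ _).isQF.imp (BoundedFormula.IsAtomic.equal _ _).isQF
  have key : ∀ (v : Fin n → R) (u : Fin 1 → R), ψ.Realize (Fin.append v u) ↔
      (Q.eval₂ (FreeCommRing.lift v) (u 0) = 0 → D.eval₂ (FreeCommRing.lift v) (u 0) = 0) := by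
    intro v u
    change (Formula.Realize (Formula.imp _ _) _) ↔ _
    rw [Formula.realize_imp, Formula.realize_equal, Formula.realize_equal,
      realize_termOfFreeCommRing, realize_termOfFreeCommRing, realize_termOfFreeCommRing,
      lift_pt, lift_pt, map_zero]
  have h1 := h 1 ψ hψ (fun u => (key a u).2 (H (u 0))) (fun _ => w)
  exact (key x _).1 h1 hw

/-- A tuple satisfying the universal formulas true of a generating tuple of a domain generates. -/
theorem generates [IsDomain R] {n : ℕ} {a x : Fin n → R}
    (ha : ∀ y : R, ∃ t : Language.ring.Term (Fin n), t.realize a = y)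
    (h : UnivLE (L := Language.ring) a x) (y : R) :
    ∃ t : Language.ring.Term (Fin n), t.realize x = y := by
  classical
  -- the two evaluation homomorphisms have the same kernel
  let f : FreeCommRing (Fin n) →+* R := FreeCommRing.lift a
  let g : FreeCommRing (Fin n) →+* R := FreeCommRing.lift x
  have hker : ∀ q, f q = 0 ↔ g q = 0 := by
    intro q
    have := h.qf (Term.equal (termOfFreeCommRing q) (termOfFreeCommRing 0))
      (BoundedFormula.IsAtomic.equal _ _).isQF
    rwa [Formula.realize_equal, Formula.realize_equal, realize_termOfFreeCommRing,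
      realize_termOfFreeCommRing, realize_termOfFreeCommRing, realize_termOfFreeCommRing,
      map_zero, map_zero] at this
  have hterm : ∀ (t : Language.ring.Term (Fin n)) (v : Fin n → R),
      ∃ q : FreeCommRing (Fin n), FreeCommRing.lift v q = t.realize v := by
    intro t v
    induction t with
    | var i => exact ⟨FreeCommRing.of i, FreeCommRing.lift_of _ _⟩
    | @func l F ts ih =>
      choose q hq using ih
      cases F with
      | add =>
        refine ⟨q 0 + q 1, ?_⟩
        rw [map_add, hq, hq]
        exact (CompatibleRing.funMap_add (R := R) (fun i => (ts i).realize v)).symm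
      | mul =>
        refine ⟨q 0 * q 1, ?_⟩
        rw [map_mul, hq, hq]
        exact (CompatibleRing.funMap_mul (R := R) (fun i => (ts i).realize v)).symm
      | neg =>
        refine ⟨- q 0, ?_⟩
        rw [map_neg, hq]
        exact (CompatibleRing.funMap_neg (R := R) (fun i => (ts i).realize v)).symm
      | zero =>
        refine ⟨0, ?_⟩
        rw [map_zero]
        exact (CompatibleRing.funMap_zero (R := R) (fun i => (ts i).realize v)).symm
      | one =>
        refine ⟨1, ?_⟩
        rw [map_one]
        exact (CompatibleRing.funMap_one (R := R) (fun i => (ts i).realize v)).symm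
  have hf : Function.Surjective f := by
    intro z
    obtain ⟨t, ht⟩ := ha z
    obtain ⟨q, hq⟩ := hterm t a
    exact ⟨q, hq.trans ht⟩
  let φ : R →+* R := RingHom.liftOfSurjective f hf ⟨g, fun q hq => by
    rw [RingHom.mem_ker] at hq ⊢
    exact (hker q).1 hq⟩
  have hφ : ∀ q, φ (f q) = g q := fun q => RingHom.liftOfRightInverse_comp_apply _ _ _ _ q
  have hinj : Function.Injective φ := by
    rw [injective_iff_map_eq_zero]
    intro z hz
    obtain ⟨q, rfl⟩ := hf z
    rw [hφ] at hz
    exact (hker q).2 hz
  have hfin : Algebra.FiniteType ℤ R := by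
    refine ⟨⟨Finset.univ.image a, ?_⟩⟩
    rw [eq_top_iff]
    intro z _
    obtain ⟨q, rfl⟩ := hf z
    induction q using FreeCommRing.induction_on with
    | neg_one => rw [map_neg, map_one]; exact Subalgebra.neg_mem _ (Subalgebra.one_mem _)
    | of i =>
      change FreeCommRing.lift a (FreeCommRing.of i) ∈ _
      rw [FreeCommRing.lift_of]
      exact Algebra.subset_adjoin (by simp)
    | add u v hu hv => rw [map_add]; exact Subalgebra.add_mem _ (hu trivial) (hv trivial)
    | mul u v hu hv => rw [map_mul]; exact Subalgebra.mul_mem _ (hu trivial) (hv trivial)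
  obtain ⟨p, hp0, hp1⟩ := algebraic_over_image hfin φ hinj y
  -- lift `p` and the product over its roots
  obtain ⟨Q, hQ⟩ := Polynomial.map_surjective f hf p
  obtain ⟨D, hD⟩ := Polynomial.map_surjective f hf (∏ c ∈ p.roots.toFinset, (X - C c))
  have hcomp : φ.comp f = g := RingHom.ext hφ
  have e1 : ∀ (T : (FreeCommRing (Fin n))[X]) (w : R), T.eval₂ g w = (T.map f).eval₂ φ w := by
    intro T w
    rw [Polynomial.eval₂_map, hcomp]
  have h1 : D.eval₂ g y = 0 := by
    refine transfer h Q D (fun w hw => ?_) y ?_
    · change Q.eval₂ f w = 0 at hw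
      change D.eval₂ f w = 0
      rw [← Polynomial.eval_map, hQ] at hw
      rw [← Polynomial.eval_map, hD, Polynomial.eval_prod]
      refine Finset.prod_eq_zero (i := w) ?_ ?_
      · rw [Multiset.mem_toFinset, Polynomial.mem_roots hp0]
        exact hw
      · simp
    · change Q.eval₂ g y = 0
      rw [e1, hQ]
      exact hp1
  rw [e1, hD, Polynomial.eval₂_finsetProd, Finset.prod_eq_zero_iff] at h1
  obtain ⟨c, _, hc⟩ := h1
  rw [Polynomial.eval₂_sub, Polynomial.eval₂_X, Polynomial.eval₂_C, sub_eq_zero] at hc
  obtain ⟨q, rfl⟩ := hf c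
  rw [hφ] at hc
  refine ⟨termOfFreeCommRing q, ?_⟩
  rw [realize_termOfFreeCommRing]
  exact hc.symm

end Main

/-- **Every finitely generated integral domain has a d-`Σ_2` Scott sentence.** -/
theorem result (R : Type) [CommRing R] [IsDomain R] [CompatibleRing R]
    (h : Structure.FG Language.ring R) : HasDSigma2Scott Language.ring R := by
  classical
  obtain ⟨S, hS⟩ := Structure.fg_def.1 h
  have ha : ∀ y : R, ∃ t : Language.ring.Term (Fin S.card),
      t.realize (fun i => ((S.equivFin.symm i : S) : R)) = y := by
    intro y
    have hy : y ∈ Substructure.closure Language.ring (S : Set R) := by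
      rw [hS]; trivial
    obtain ⟨t, ht⟩ := Substructure.mem_closure_iff_exists_term.1 hy
    refine ⟨t.relabel (fun z => S.equivFin z), ?_⟩
    rw [Term.realize_relabel, ← ht]
    congr 1
    funext z
    simp
  exact hasDSigma2Scott_of_generates _ ha fun x hx y => generates ha hx y

end Pool.Agent.Results.MP_93e0ce_lc.IntegralDomains
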